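import Mathlib

namespace Pool.Agent.Results.MP_a6fba8_lc.NotModular

open Relation

/-- A signature: function symbols with arities. -/
structure Sig where
  sym : Type
  ar : sym → ℕ

/-- First-order terms over a signature and countably many variables. -/
inductive Term (F : Sig) : Type
  | var : ℕ → Term F
  | app (f : F.sym) (args : Fin (F.ar f) → Term F) : Term F

/-- Application of a substitution. -/
def Term.subst {F : Sig} (σ : ℕ → Term F) : Term F → Term F
  | .var n => σ n
  | .app f args => .app f (fun i => (args i).subst σ)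

/-- The variable `n` occurs in the term. -/
def Term.Occ {F : Sig} (n : ℕ) : Term F → Prop
  | .var m => m = n
  | .app _ args => ∃ i, (args i).Occ n

/-- A join conditional rule `u₁ ↓ v₁ ∧ ⋯ ∧ u_k ↓ v_k ⇒ l → r`. -/
structure Rule (F : Sig) where
  conds : List (Term F × Term F)
  lhs : Term F
  rhs : Term F

/-- The left side is not a variable, and every variable of the right side and of the
conditions occurs in the left side. -/
def Rule.WF {F : Sig} (ρ : Rule F) : Prop :=
  (∀ n, ρ.lhs ≠ .var n) ∧ (∀ n, ρ.rhs.Occ n → ρ.lhs.Occ n) ∧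
    ∀ p ∈ ρ.conds, ∀ n, (p.1.Occ n ∨ p.2.Occ n) → ρ.lhs.Occ n

/-- One rewrite step in a context, conditions being joinability for the relation `c`. -/
inductive Step {F : Sig} (R : Set (Rule F)) (c : Term F → Term F → Prop) :
    Term F → Term F → Prop
  | root (ρ : Rule F) (σ : ℕ → Term F) : ρ ∈ R →
      (∀ p ∈ ρ.conds, ∃ w, ReflTransGen c (p.1.subst σ) w ∧ ReflTransGen c (p.2.subst σ) w) →
      Step R c (ρ.lhs.subst σ) (ρ.rhs.subst σ)
  | ctx (f : F.sym) (args : Fin (F.ar f) → Term F) (i : Fin (F.ar f)) (t : Term F) :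
      Step R c (args i) t → Step R c (.app f args) (.app f (Function.update args i t))

/-- The levels of the rewrite relation. -/
def Lev {F : Sig} (R : Set (Rule F)) : ℕ → Term F → Term F → Prop
  | 0 => fun _ _ => False
  | n + 1 => Step R (Lev R n)

/-- The rewrite relation of the join CTRS `R`. -/
def Rew {F : Sig} (R : Set (Rule F)) (s t : Term F) : Prop := ∃ n, Lev R n s t

/-- Normal forms. -/
def NF {F : Sig} (R : Set (Rule F)) (s : Term F) : Prop := ∀ t, ¬ Rew R s t

/-- Unique normal forms: convertible normal forms are identical. -/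
def UN {F : Sig} (R : Set (Rule F)) : Prop :=
  ∀ s t, NF R s → NF R t → EqvGen (Rew R) s t → s = t

/-- Disjoint union of signatures. -/
def Sig.sum (F G : Sig) : Sig := ⟨F.sym ⊕ G.sym, Sum.elim F.ar G.ar⟩

/-- A term over `F` seen over the disjoint union. -/
def Term.inl {F : Sig} (G : Sig) : Term F → Term (F.sum G)
  | .var n => .var n
  | .app f args => .app (Sum.inl f) (fun i => (args i).inl G)

/-- A term over `G` seen over the disjoint union. -/
def Term.inr (F : Sig) {G : Sig} : Term G → Term (F.sum G)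
  | .var n => .var n
  | .app f args => .app (Sum.inr f) (fun i => (args i).inr F)

/-- Disjoint union of two systems. -/
def union {F G : Sig} (R : Set (Rule F)) (S : Set (Rule G)) : Set (Rule (F.sum G)) :=
  (fun ρ => ⟨ρ.conds.map (fun p => (p.1.inl G, p.2.inl G)), ρ.lhs.inl G, ρ.rhs.inl G⟩) '' R ∪
  (fun ρ => ⟨ρ.conds.map (fun p => (p.1.inr F, p.2.inr F)), ρ.lhs.inr F, ρ.rhs.inr F⟩) '' S

/-! The counterexample. -/

inductive RS : Type
  | a1 | a2 | c | d | w | b | e | f
  deriving DecidableEq

abbrev F1 : Sig := ⟨RS, fun s => match s with | .f => 1 | _ => 0⟩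

def k (s : RS) : Term F1 := .app s (fun _ => .var 0)

def R1 : Set (Rule F1) :=
  {⟨[], k .a1, k .c⟩, ⟨[], k .a1, k .w⟩, ⟨[], k .a2, k .w⟩, ⟨[], k .a2, k .d⟩,
   ⟨[], k .c, k .c⟩, ⟨[], k .d, k .d⟩, ⟨[], k .w, k .w⟩,
   ⟨[(.var 0, k .c), (.var 0, k .d)], k .f, k .b⟩,
   ⟨[(.var 0, k .c), (.var 0, k .d)], k .f, k .e⟩}

abbrev F2 : Sig := ⟨Unit, fun _ => 5⟩

def g (x y z u v : Term F2) : Term F2 := .app () ![x, y, z, u, v]

def R2 : Set (Rule F2) :=
  {⟨[], g (.var 0) (.var 1) (.var 0) (.var 2) (.var 2), .var 0⟩,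
   ⟨[], g (.var 0) (.var 1) (.var 2) (.var 2) (.var 1), .var 1⟩}

lemma eqv_inv {α β : Type} {r : α → α → Prop} (φ : α → β) (h : ∀ x y, r x y → φ x = φ y)
    {x y : α} (e : EqvGen r x y) : φ x = φ y := by
  induction e with
  | rel _ _ r => exact h _ _ r
  | refl => rfl
  | symm _ _ _ ih => exact ih.symm
  | trans _ _ _ _ _ i1 i2 => exact i1.trans i2

lemma NF_arg {F : Sig} {R : Set (Rule F)} {f : F.sym} {args : Fin (F.ar f) → Term F}
    (h : NF R (.app f args)) (i : Fin (F.ar f)) : NF R (args i) := by
  rintro t ⟨n, hn⟩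
  cases n with
  | zero => exact hn.elim
  | succ n => exact h _ ⟨n + 1, Step.ctx f args i t hn⟩

open Classical in
noncomputable def nf' (a : Fin 5 → Term F2) : Term F2 :=
  if a 0 = a 2 ∧ a 3 = a 4 then a 0 else if a 2 = a 3 ∧ a 1 = a 4 then a 1 else .app () a

noncomputable def nf : Term F2 → Term F2
  | .var n => .var n
  | .app _ args => nf' (fun i => nf (args i))

lemma g_subst (σ) (x y z u v : Term F2) : (g x y z u v).subst σ =
    g (x.subst σ) (y.subst σ) (z.subst σ) (u.subst σ) (v.subst σ) := by
  simp only [g, Term.subst]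
  congr 1
  funext i
  fin_cases i <;> rfl

lemma nf_step {c s t} (h : Step R2 c s t) : nf s = nf t := by
  induction h with
  | root ρ σ hρ _ =>
    rcases hρ with rfl | rfl
    · simp only [g_subst, Term.subst]
      simp [g, nf, nf']
    · simp only [g_subst, Term.subst]
      simp only [g, nf, nf']
      split_ifs with h1 h2
      · exact h1.1.trans h1.2
      · rfl
      · exact (h2 ⟨rfl, rfl⟩).elim
  | ctx f args i t _ ih =>
    simp only [nf]
    congr 1
    funext j
    by_cases hj : j = i
    · subst hj; rw [Function.update_self]; exact ih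
    · rw [Function.update_of_ne hj]

lemma eta5 (a : Fin 5 → Term F2) : Term.app (F := F2) () a = g (a 0) (a 1) (a 2) (a 3) (a 4) := by
  unfold g
  congr 1
  funext i
  fin_cases i <;> rfl

lemma r21 (x y z : Term F2) : Rew R2 (g x y x z z) x := by
  have := Step.root (R := R2) (c := Lev R2 0) _
    (fun n => if n = 0 then x else if n = 1 then y else z) (Or.inl rfl) (by simp)
  simp only [g_subst, Term.subst] at this
  exact ⟨1, this⟩

lemma r22 (x y z : Term F2) : Rew R2 (g x y z z y) y := by
  have := Step.root (R := R2) (c := Lev R2 0) _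
    (fun n => if n = 0 then x else if n = 1 then y else z) (Or.inr rfl) (by simp)
  simp only [g_subst, Term.subst] at this
  exact ⟨1, this⟩

lemma nf_NF : ∀ t, NF R2 t → nf t = t := by
  intro t
  induction t with
  | var n => intro _; rfl
  | app f args ih =>
    intro h
    have ha : ∀ i, nf (args i) = args i := fun i => ih i (NF_arg h i)
    simp only [nf]
    rw [show (fun i => nf (args i)) = args from funext ha]
    unfold nf'
    have h' : NF R2 (g (args 0) (args 1) (args 2) (args 3) (args 4)) := by
      rw [← eta5]; exact h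
    split_ifs with h1 h2
    · rw [← h1.1, ← h1.2] at h'
      exact (h' _ (r21 _ _ _)).elim
    · rw [← h2.1, ← h2.2] at h'
      exact (h' _ (r22 _ _ _)).elim
    · rfl

lemma UN2 : UN R2 := by
  intro s t hs ht e
  have := eqv_inv nf (fun x y h => by
    obtain ⟨n, h⟩ := h
    cases n with
    | zero => exact h.elim
    | succ n => exact nf_step h) e
  rwa [nf_NF s hs, nf_NF t ht] at this

def root : Term F1 → Option RS
  | .var _ => none
  | .app s _ => some s

def phi : Term F1 → Term F1
  | .var n => .var n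
  | .app .f args => .app RS.f (fun i => phi (args i))
  | .app .b _ => k .b
  | .app .e _ => k .e
  | .app _ _ => k .w

/-- Root symbols: allowed changes. -/
def RR (x y : Option RS) : Prop :=
  x = y ∨ (x = some .a1 ∧ (y = some .c ∨ y = some .w)) ∨ (x = some .a2 ∧ (y = some .w ∨ y = some .d))

lemma RR_star {c : Term F1 → Term F1 → Prop} (hc : ∀ s t, c s t → RR (root s) (root t)) {s t}
    (h : ReflTransGen c s t) : RR (root s) (root t) := by
  induction h with
  | refl => exact Or.inl rfl
  | tail _ h ih =>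
    have := hc _ _ h
    unfold RR at *
    rcases ih with h | ⟨h, h' | h'⟩ | ⟨h, h' | h'⟩ <;>
      rcases this with k | ⟨k, k' | k'⟩ | ⟨k, k' | k'⟩ <;> simp_all

lemma step1 {c : Term F1 → Term F1 → Prop} (hc : ∀ s t, c s t → RR (root s) (root t)) {s t}
    (h : Step R1 c s t) : RR (root s) (root t) ∧ phi s = phi t := by
  induction h with
  | root ρ σ hρ hcond =>
    have key : ρ.conds ≠ [(.var 0, k .c), (.var 0, k .d)] := by
      intro e
      rw [e] at hcond
      obtain ⟨w1, p1, q1⟩ := hcond (.var 0, k .c) (by simp)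
      obtain ⟨w2, p2, q2⟩ := hcond (.var 0, k .d) (by simp)
      have a1 := RR_star hc p1
      have a2 := RR_star hc p2
      have b1 : RR (some .c) (root w1) := RR_star hc q1
      have b2 : RR (some .d) (root w2) := RR_star hc q2
      unfold RR at *
      simp only [Option.some.injEq, reduceCtorEq, false_and, or_false] at b1 b2
      rw [← b1] at a1
      rw [← b2] at a2
      simp only [Term.subst] at a1 a2
      revert a1 a2
      generalize root (σ 0) = x
      intro a1 a2
      rcases a1 with rfl | ⟨rfl, a⟩ | ⟨rfl, a⟩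
      · simp at a2
      · simp at a2
      · simp at a
    simp only [R1, Set.mem_insert_iff, Set.mem_singleton_iff] at hρ
    rcases hρ with rfl | rfl | rfl | rfl | rfl | rfl | rfl | rfl | rfl
    all_goals first
      | exact (key rfl).elim
      | exact ⟨by simp [RR, k, Term.subst, root], rfl⟩
  | ctx f args i t _ ih =>
    refine ⟨Or.inl rfl, ?_⟩
    cases f
    case f =>
      simp only [phi]
      congr 1
      funext j
      by_cases hj : j = i
      · subst hj; rw [Function.update_self]; exact ih.2
      · rw [Function.update_of_ne hj]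
    all_goals exact i.elim0

lemma lev1 : ∀ n s t, Lev R1 n s t → RR (root s) (root t) ∧ phi s = phi t := by
  intro n
  induction n with
  | zero => exact fun _ _ h => h.elim
  | succ n ih => exact fun _ _ h => step1 (fun s t h => (ih s t h).1) h

lemma const_eq (s : RS) (h : F1.ar s = 0) (a a' : Fin (F1.ar s) → Term F1) :
    Term.app (F := F1) s a = Term.app (F := F1) s a' := by
  congr 1
  funext i
  exact (i.cast h).elim0

lemma phi_NF : ∀ t, NF R1 t → phi t = t := by
  intro t
  induction t with
  | var n => intro _; rfl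
  | app f args ih =>
    intro h
    have red : ∀ r, (⟨[], k f, r⟩ : Rule F1) ∈ R1 → F1.ar f = 0 → False := by
      intro r hr h0
      have := Step.root (R := R1) (c := Lev R1 0) _ (fun n => .var n) hr (by simp)
      rw [const_eq f h0 args (fun _ => .var 0)] at h
      exact h _ ⟨1, this⟩
    cases f
    case f =>
      simp only [phi]
      congr 1
      funext j
      exact ih j (NF_arg h j)
    case b => exact const_eq _ rfl _ _
    case e => exact const_eq _ rfl _ _
    case a1 => exact (red (k .c) (by simp [R1]) rfl).elim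
    case a2 => exact (red (k .d) (by simp [R1]) rfl).elim
    case c => exact (red (k .c) (by simp [R1]) rfl).elim
    case d => exact (red (k .d) (by simp [R1]) rfl).elim
    case w => exact (red (k .w) (by simp [R1]) rfl).elim

lemma UN1 : UN R1 := by
  intro s t hs ht e
  have := eqv_inv phi (fun x y h => by obtain ⟨n, h⟩ := h; exact (lev1 n _ _ h).2) e
  rwa [phi_NF s hs, phi_NF t ht] at this

abbrev F3 : Sig := F1.sum F2

def K (s : RS) : Term F3 := (k s).inl F2

def G (x y z u v : Term F3) : Term F3 := .app (Sum.inr ()) ![x, y, z, u, v]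

abbrev U : Set (Rule F3) := union R1 R2

lemma uK {s s' : RS} (h : (⟨[], k s, k s'⟩ : Rule F1) ∈ R1) : Lev U 1 (K s) (K s') :=
  Step.root (R := U) (c := Lev U 0) _ (fun n => .var n) (Or.inl ⟨_, h, rfl⟩) (by simp)

lemma G_subst (σ : ℕ → Term F3) (x y z u v : Term F2) : ((g x y z u v).inr F1).subst σ =
    G ((x.inr F1).subst σ) ((y.inr F1).subst σ) ((z.inr F1).subst σ) ((u.inr F1).subst σ)
      ((v.inr F1).subst σ) := by
  simp only [g, G, Term.subst, Term.inr]
  congr 1
  funext i
  fin_cases i <;> rfl

lemma u21 (x y z : Term F3) : Lev U 1 (G x y x z z) x := by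
  have := Step.root (R := U) (c := Lev U 0) _
    (fun n => if n = 0 then x else if n = 1 then y else z) (Or.inr ⟨_, Or.inl rfl, rfl⟩) (by simp)
  simp only [G_subst] at this
  exact this

lemma u22 (x y z : Term F3) : Lev U 1 (G x y z z y) y := by
  have := Step.root (R := U) (c := Lev U 0) _
    (fun n => if n = 0 then x else if n = 1 then y else z) (Or.inr ⟨_, Or.inr rfl, rfl⟩) (by simp)
  simp only [G_subst] at this
  exact this

lemma c2 {x y z u v z' : Term F3} (h : Lev U 1 z z') : Lev U 1 (G x y z u v) (G x y z' u v) := by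
  have := Step.ctx (R := U) (c := Lev U 0) (Sum.inr ()) ![x, y, z, u, v] (2 : Fin 5) z' h
  have e : Function.update ![x, y, z, u, v] (2 : Fin 5) z' = ![x, y, z', u, v] := by
    funext i
    fin_cases i <;> rfl
  unfold G
  rw [← e]
  exact this

lemma c4 {x y z u v v' : Term F3} (h : Lev U 1 v v') : Lev U 1 (G x y z u v) (G x y z u v') := by
  have := Step.ctx (R := U) (c := Lev U 0) (Sum.inr ()) ![x, y, z, u, v] (4 : Fin 5) v' h
  have e : Function.update ![x, y, z, u, v] (4 : Fin 5) v' = ![x, y, z, u, v'] := by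
    funext i
    fin_cases i <;> rfl
  unfold G
  rw [← e]
  exact this

def x0 : Term F3 := G (K .c) (K .d) (K .a1) (K .w) (K .a2)

lemma x0c : ReflTransGen (Lev U 1) x0 (K .c) :=
  .head (c2 (uK (s' := .c) (by simp [R1]))) (.head (c4 (uK (s' := .w) (by simp [R1])))
    (.single (u21 _ _ _)))

lemma x0d : ReflTransGen (Lev U 1) x0 (K .d) :=
  .head (c2 (uK (s' := .w) (by simp [R1]))) (.head (c4 (uK (s' := .d) (by simp [R1])))
    (.single (u22 _ _ _)))

lemma fx {s : RS} (h : (⟨[(.var 0, k .c), (.var 0, k .d)], k .f, k s⟩ : Rule F1) ∈ R1)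
    (h0 : F1.ar s = 0) : Rew U ((K .f).subst (fun _ => x0)) (K s) := by
  have := Step.root (R := U) (c := Lev U 1) _ (fun _ => x0) (Or.inl ⟨_, h, rfl⟩) (by
    intro p hp
    simp only [List.map_cons, List.map_nil, List.mem_cons, List.not_mem_nil, or_false] at hp
    rcases hp with rfl | rfl
    · refine ⟨_, x0c, ?_⟩
      have : ((k RS.c).inl F2).subst (fun _ => x0) = K .c := by
        simp only [K, k, Term.inl, Term.subst]; congr 1; funext i; exact i.elim0
      rw [this]
    · refine ⟨_, x0d, ?_⟩
      have : ((k RS.d).inl F2).subst (fun _ => x0) = K .d := by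
        simp only [K, k, Term.inl, Term.subst]; congr 1; funext i; exact i.elim0
      rw [this])
  have e : ((k s).inl F2).subst (fun _ => x0) = K s := by
    simp only [K, k, Term.inl, Term.subst]; congr 1; funext i; exact (i.cast h0).elim0
  simp only [e] at this
  exact ⟨2, this⟩

def root3 : Term F3 → Option (RS ⊕ Unit)
  | .var _ => none
  | .app s _ => some s

lemma nfK {s : RS} (hs : s = .b ∨ s = .e) : NF U (K s) := by
  rintro t ⟨n, hn⟩
  cases n with
  | zero => exact hn.elim
  | succ n =>
    change Step U _ _ _ at hn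
    generalize e : K s = x at hn
    cases hn with
    | root ρ σ hρ _ =>
      have := congrArg root3 e
      rcases hρ with ⟨ρ, hρ, rfl⟩ | ⟨ρ, hρ, rfl⟩
      · simp only [R1, Set.mem_insert_iff, Set.mem_singleton_iff] at hρ
        rcases hρ with rfl | rfl | rfl | rfl | rfl | rfl | rfl | rfl | rfl <;>
          rcases hs with rfl | rfl <;> simp [K, k, Term.inl, Term.subst, root3] at this
      · rcases hρ with rfl | rfl <;> simp [K, k, g, Term.inl, Term.inr, Term.subst, root3] at this
    | ctx f args i t _ =>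
      have := congrArg root3 e
      simp only [K, k, Term.inl, root3, Option.some.injEq] at this
      subst this
      rcases hs with rfl | rfl <;> exact i.elim0

theorem result : ∃ (F G : Sig) (R : Set (Rule F)) (S : Set (Rule G)),
    Finite F.sym ∧ Finite G.sym ∧ R.Finite ∧ S.Finite ∧ (∀ ρ ∈ R, ρ.WF) ∧ (∀ ρ ∈ S, ρ.WF) ∧
    UN R ∧ UN S ∧ ¬ UN (union R S) := by
  refine ⟨F1, F2, R1, R2, ?_, inferInstanceAs (Finite Unit), by simp [R1], by simp [R2], ?_, ?_,
    UN1, UN2, fun h => ?_⟩
  · refine Finite.of_surjective (β := RS)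
      (![.a1, .a2, .c, .d, .w, .b, .e, .f] : Fin 8 → RS) (fun s => ?_)
    cases s
    exacts [⟨0, rfl⟩, ⟨1, rfl⟩, ⟨2, rfl⟩, ⟨3, rfl⟩, ⟨4, rfl⟩, ⟨5, rfl⟩, ⟨6, rfl⟩, ⟨7, rfl⟩]
  · intro ρ hρ
    simp only [R1, Set.mem_insert_iff, Set.mem_singleton_iff] at hρ
    rcases hρ with rfl | rfl | rfl | rfl | rfl | rfl | rfl | rfl | rfl <;>
      simp [Rule.WF, k, Term.Occ]
  · intro ρ hρ
    rcases hρ with rfl | rfl
    · refine ⟨by simp [g], fun n hn => ⟨(0 : Fin 5), hn⟩, by simp⟩
    · refine ⟨by simp [g], fun n hn => ⟨(1 : Fin 5), hn⟩, by simp⟩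
  · have := h _ _ (nfK (Or.inl rfl)) (nfK (Or.inr rfl))
      (.trans _ _ _ (.symm _ _ (.rel _ _ (fx (by simp [R1]) rfl))) (.rel _ _ (fx (by simp [R1]) rfl)))
    have := congrArg root3 this
    simp [K, k, Term.inl, root3] at this

end Pool.Agent.Results.MP_a6fba8_lc.NotModular
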